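import Mathlib

/-!
# The infinite Ramsey theorem
-/

set_option autoImplicit false

namespace Pool.Agent.H702R3.TP

theorem ramsey_set (m : ℕ) : ∀ (c : Finset ℕ → Prop) (H : Set ℕ), H.Infinite →
    ∃ H' ⊆ H, H'.Infinite ∧ ∃ b : Prop, ∀ s : Finset ℕ, (s : Set ℕ) ⊆ H' → s.card = m →
      (c s ↔ b) := by
  classical
  induction m with
  | zero =>
    intro c H hH
    refine ⟨H, subset_rfl, hH, c ∅, fun s _ hs => ?_⟩
    rw [Finset.card_eq_zero.1 hs]
  | succ m ih =>
    intro c H hH
    have step : ∀ G : {G : Set ℕ // G.Infinite}, ∃ G' : {G : Set ℕ // G.Infinite},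
        G'.1 ⊆ G.1 ∩ {y | sInf G.1 < y} ∧ ∃ b : Prop, ∀ s : Finset ℕ, (s : Set ℕ) ⊆ G'.1 →
          s.card = m → (c (insert (sInf G.1) s) ↔ b) := by
      rintro ⟨G, hG⟩
      have h1 : (G ∩ {y | sInf G < y}).Infinite := by
        have : (G \ {y | y ≤ sInf G}).Infinite := hG.sdiff (Set.finite_Iic _)
        refine this.mono ?_
        rintro y ⟨h1, h2⟩
        have h3 : ¬ y ≤ sInf G := h2
        exact ⟨h1, lt_of_not_ge h3⟩
      obtain ⟨G', h2, h3, b, h4⟩ := ih (fun s => c (insert (sInf G) s)) _ h1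
      exact ⟨⟨G', h3⟩, h2, b, h4⟩
    choose nx hnx b hb using step
    let G : ℕ → {G : Set ℕ // G.Infinite} := fun n => nx^[n] ⟨H, hH⟩
    have hG : ∀ n, G (n + 1) = nx (G n) := fun n => Function.iterate_succ_apply' nx n _
    let x : ℕ → ℕ := fun n => sInf (G n).1
    have hx : ∀ n, x n ∈ (G n).1 := fun n => Nat.sInf_mem (G n).2.nonempty
    have hsub : ∀ n, (G (n + 1)).1 ⊆ (G n).1 ∩ {y | x n < y} := by
      intro n
      rw [hG]
      exact hnx (G n)
    have hanti : ∀ n j, n ≤ j → (G j).1 ⊆ (G n).1 := by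
      intro n j hnj
      induction j, hnj using Nat.le_induction with
      | base => exact subset_rfl
      | succ j _ ih => exact ((hsub j).trans Set.inter_subset_left).trans ih
    have hmono : StrictMono x := strictMono_nat_of_lt_succ fun n => (hsub n (hx (n + 1))).2
    have hinf : ∃ S : Set ℕ, S.Infinite ∧ ∃ b' : Prop, ∀ n ∈ S, (b (G n) ↔ b') := by
      by_cases h : {n | b (G n)}.Infinite
      · exact ⟨_, h, True, fun n hn => by simpa using hn⟩
      · refine ⟨{n | b (G n)}ᶜ, ?_, False, fun n hn => by simpa using hn⟩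
        exact (Set.not_infinite.1 h).infinite_compl
    obtain ⟨S, hS, b', hb'⟩ := hinf
    refine ⟨x '' S, ?_, hS.image hmono.injective.injOn, b', ?_⟩
    · rintro _ ⟨n, _, rfl⟩
      exact hanti 0 n (Nat.zero_le n) (hx n)
    · intro s hs hcard
      have hne : s.Nonempty := Finset.card_pos.1 (by omega)
      obtain ⟨n, hn, hxn⟩ := hs (s.min'_mem hne)
      have h1 : s = insert (x n) (s.erase (x n)) := by
        rw [Finset.insert_erase]
        rw [hxn]
        exact s.min'_mem hne
      have h2 : ((s.erase (x n) : Finset ℕ) : Set ℕ) ⊆ (nx (G n)).1 := by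
        intro y hy
        have hy' : y ∈ s := Finset.mem_of_mem_erase hy
        obtain ⟨j, _, rfl⟩ := hs hy'
        have hlt : x n < x j := by
          rw [hxn]
          refine lt_of_le_of_ne (s.min'_le _ hy') ?_
          intro he
          exact (Finset.ne_of_mem_erase hy) (by rw [hxn, he])
        have hnj : n + 1 ≤ j := hmono.lt_iff_lt.1 hlt
        rw [← hG]
        exact hanti (n + 1) j hnj (hx j)
      have h3 : (s.erase (x n)).card = m := by
        rw [Finset.card_erase_of_mem (by rw [hxn]; exact s.min'_mem hne)]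
        omega
      rw [h1]
      exact (hb (G n) _ h2 h3).trans (hb' n hn)

/-- The infinite Ramsey theorem for two colours. -/
theorem ramsey (m : ℕ) (c : Finset ℕ → Prop) : ∃ f : ℕ → ℕ, StrictMono f ∧
    ((∀ s : Finset ℕ, s.card = m → c (s.image f)) ∨
      ∀ s : Finset ℕ, s.card = m → ¬ c (s.image f)) := by
  classical
  obtain ⟨H, -, hH, b, hb⟩ := ramsey_set m c Set.univ Set.infinite_univ
  have : Infinite H := hH.to_subtype
  let f := Nat.orderEmbeddingOfSet H
  have hf : ∀ n, f n ∈ H := fun n => Nat.orderEmbeddingOfSet_range H ▸ Set.mem_range_self n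
  have hs : ∀ s : Finset ℕ, s.card = m → (c (s.image f) ↔ b) := by
    intro s hs
    refine hb _ ?_ ?_
    · intro y hy
      obtain ⟨n, _, rfl⟩ := Finset.mem_image.1 (Finset.mem_coe.1 hy)
      exact hf n
    · rw [Finset.card_image_of_injective _ f.injective, hs]
  refine ⟨f, f.strictMono, ?_⟩
  by_cases h : b
  · exact Or.inl fun s h1 => (hs s h1).2 h
  · exact Or.inr fun s h1 h2 => h ((hs s h1).1 h2)

end Pool.Agent.H702R3.TP
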