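import Pool.Agent.H702R3.TP.Ramsey

/-!
# From `k`-inconsistent trees to `2`-inconsistent trees

Abstract form: `R : X → Y → Prop` is the relation given by a formula `φ(x, y)` in a sufficiently
saturated model.
-/

set_option autoImplicit false

namespace Pool.Agent.H702R3.TP

variable {X Y : Type*} (R : X → Y → Prop)

/-- the conjunction of the instances of `R` at `a i`, `i ∈ s` -/
def inst (a : ℕ → Y) (s : Finset ℕ) : Set X := {x | ∀ i ∈ s, R x (a i)}

/-- a sequence of parameters with `k`-inconsistent instances -/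
def KInc (k : ℕ) (a : ℕ → Y) : Prop := ∀ s : Finset ℕ, s.card = k → inst R a s = ∅

/-- conjunctions of `K` instances -/
def InstConj (K : ℕ) (E : Set X) : Prop := ∃ t : Fin K → Y, E = {x | ∀ i, R x (t i)}

/-- the local rank for conjunctions of `m` elements of `k`-inconsistent sequences -/
def D (k m : ℕ) : ℕ → Set X → Prop
  | 0, Z => Z.Nonempty
  | (N + 1), Z => ∃ a : ℕ → Y, KInc R k a ∧ ∀ s : Finset ℕ, s.card = m → D k m N (Z ∩ inst R a s)

variable {R} {k m : ℕ}

theorem D_mono : ∀ {N : ℕ} {Z Z' : Set X}, Z ⊆ Z' → D R k m N Z → D R k m N Z'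
  | 0, _, _, h, hZ => hZ.mono h
  | (N + 1), _, _, h, ⟨a, ha, hs⟩ =>
    ⟨a, ha, fun s hc => D_mono (Set.inter_subset_inter_left _ h) (hs s hc)⟩

theorem D_succ_le {N : ℕ} {Z : Set X} (h : D R k m (N + 1) Z) : D R k m N Z := by
  obtain ⟨a, _, hs⟩ := h
  exact D_mono Set.inter_subset_left (hs (Finset.range m) (Finset.card_range m))

theorem D_anti {N N' : ℕ} (hN : N ≤ N') {Z : Set X} (h : D R k m N' Z) : D R k m N Z := by
  induction N', hN using Nat.le_induction with
  | base => exact h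
  | succ j _ ih => exact ih (D_succ_le h)

theorem D_nonempty {N : ℕ} {Z : Set X} (h : D R k m N Z) : Z.Nonempty :=
  D_anti (Nat.zero_le N) h

theorem inst_comp (a : ℕ → Y) (f : ℕ → ℕ) (s : Finset ℕ) :
    inst R (a ∘ f) s = inst R a (s.image f) := by
  ext x
  simp [inst]

theorem KInc.comp {a : ℕ → Y} (ha : KInc R k a) {f : ℕ → ℕ} (hf : StrictMono f) :
    KInc R k (a ∘ f) := by
  intro s hs
  rw [inst_comp]
  exact ha _ (by rw [Finset.card_image_of_injective _ hf.injective, hs])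

/-- the rank of a union -/
theorem D_union : ∀ {N : ℕ} {Z₁ Z₂ : Set X}, D R k m N (Z₁ ∪ Z₂) →
    D R k m N Z₁ ∨ D R k m N Z₂
  | 0, _, _, h => Set.union_nonempty.1 h
  | (N + 1), Z₁, Z₂, ⟨a, ha, hs⟩ => by
    obtain ⟨f, hf, h⟩ := ramsey m (fun s => D R k m N (Z₁ ∩ inst R a s))
    rcases h with h | h
    · refine Or.inl ⟨a ∘ f, ha.comp hf, fun s hc => ?_⟩
      rw [inst_comp]
      exact h s hc
    · refine Or.inr ⟨a ∘ f, ha.comp hf, fun s hc => ?_⟩
      rw [inst_comp]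
      have h1 := hs (s.image f) (by rw [Finset.card_image_of_injective _ hf.injective, hc])
      rw [Set.union_inter_distrib_right] at h1
      exact (D_union h1).resolve_left (h s hc)

theorem D_biUnion {N : ℕ} (F : Finset ℕ) (Z : ℕ → Set X) (h : D R k m N (⋃ i ∈ F, Z i)) :
    ∃ i ∈ F, D R k m N (Z i) := by
  classical
  induction F using Finset.induction_on with
  | empty =>
    have := D_nonempty h
    simp at this
  | insert i F _ ih =>
    rw [Finset.set_biUnion_insert] at h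
    rcases D_union h with h1 | h1
    · exact ⟨i, Finset.mem_insert_self _ _, h1⟩
    · obtain ⟨j, hj, h2⟩ := ih h1
      exact ⟨j, Finset.mem_insert_of_mem hj, h2⟩

theorem InstConj.inter {K K' : ℕ} {E E' : Set X} (h : InstConj R K E) (h' : InstConj R K' E') :
    InstConj R (K + K') (E ∩ E') := by
  obtain ⟨t, rfl⟩ := h
  obtain ⟨t', rfl⟩ := h'
  refine ⟨Fin.append t t', ?_⟩
  ext x
  constructor
  · rintro ⟨h1, h2⟩ i
    refine Fin.addCases (fun j => ?_) (fun j => ?_) i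
    · rw [Fin.append_left]; exact h1 j
    · rw [Fin.append_right]; exact h2 j
  · intro h
    refine ⟨fun j => ?_, fun j => ?_⟩
    · have := h (Fin.castAdd K' j)
      rwa [Fin.append_left] at this
    · have := h (Fin.natAdd K j)
      rwa [Fin.append_right] at this

theorem instConj_univ : InstConj R 0 (Set.univ : Set X) :=
  ⟨Fin.elim0, by ext x; simp⟩

theorem instConj_inst (a : ℕ → Y) (s : Finset ℕ) : InstConj R s.card (inst R a s) := by
  refine ⟨fun i => a (s.equivFin.symm i), ?_⟩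
  ext x
  constructor
  · intro h i
    exact h _ (s.equivFin.symm i).2
  · intro h i hi
    have := h (s.equivFin ⟨i, hi⟩)
    simpa using this

/-- the saturation property used in the argument -/
def Sat (R : X → Y → Prop) (k m j : ℕ) : Prop :=
  ∀ (K : ℕ) (Z : Set X), InstConj R K Z →
    (∀ N, ∃ a : ℕ → Y, KInc R k a ∧ ∀ s : Finset ℕ, s.card = j → D R k m N (Z ∩ inst R a s)) →
    ∃ a : ℕ → Y, KInc R k a ∧ ∀ s : Finset ℕ, s.card = j → ∀ N, D R k m N (Z ∩ inst R a s)

/-- the path lemma -/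
theorem path (hsat : Sat R k m m) : ∀ (N₁ K : ℕ) (Z W : Set X), InstConj R K Z →
    (∀ N, D R k m N Z) → ¬ D R k m N₁ W → ∃ E, InstConj R (m * N₁) E ∧
      (∀ N, D R k m N (Z ∩ E)) ∧ W ∩ E = ∅ := by
  intro N₁
  induction N₁ with
  | zero =>
    intro K Z W hZ hD hW
    refine ⟨Set.univ, instConj_univ, fun N => by rw [Set.inter_univ]; exact hD N, ?_⟩
    rw [Set.inter_univ]
    exact Set.not_nonempty_iff_eq_empty.1 hW
  | succ N₁ ih =>
    intro K Z W hZ hD hW
    obtain ⟨a, ha, hs⟩ := hsat K Z hZ (fun N => hD (N + 1))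
    have h1 : ∃ s : Finset ℕ, s.card = m ∧ ¬ D R k m N₁ (W ∩ inst R a s) := by
      by_contra hcon
      push Not at hcon
      exact hW ⟨a, ha, hcon⟩
    obtain ⟨s, hsm, h2⟩ := h1
    obtain ⟨E, hE1, hE2, hE3⟩ := ih _ _ _ (hZ.inter (instConj_inst a s)) (hs s hsm) h2
    refine ⟨inst R a s ∩ E, ?_, ?_, ?_⟩
    · have h3 := (instConj_inst (R := R) a s).inter hE1
      have h4 : s.card + m * N₁ = m * (N₁ + 1) := by rw [hsm]; ring
      rwa [h4] at h3
    · intro N
      rw [← Set.inter_assoc]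
      exact hE2 N
    · rw [← Set.inter_assoc]
      exact hE3

/-- the blocks of length `m` -/
def blk (m j : ℕ) : Finset ℕ := Finset.Ico (m * j) (m * j + m)

theorem blk_card (m j : ℕ) : (blk m j).card = m := by simp [blk]

/-- The main step: in a saturated situation, trees with `k`-inconsistent siblings yield trees with
`2`-inconsistent siblings, for conjunctions of a fixed number of instances. -/
theorem step (hsat : ∀ m j, Sat R k m j) (hTP : ∀ N, D R k 1 N (Set.univ : Set X)) :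
    ∃ (K : ℕ) (L : Set (Set X)), (∃ Z ∈ L, True) ∧ (∀ Z ∈ L, Z.Nonempty) ∧
      ∀ Z ∈ L, ∃ Θ : ℕ → Set X, (∀ j, InstConj R K (Θ j)) ∧ (∀ i j, i ≠ j → Θ i ∩ Θ j = ∅) ∧
        ∀ j, Z ∩ Θ j ∈ L := by
  classical
  -- the maximal `m`
  have hk : ¬ ∀ N, D R k k N (Set.univ : Set X) := by
    intro h
    obtain ⟨a, ha, hs⟩ := h 1
    obtain ⟨x, hx⟩ := hs (Finset.range k) (Finset.card_range k)
    rw [ha _ (Finset.card_range k)] at hx
    exact hx.2
  have hk1 : 1 ≤ k := by
    by_contra h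
    have h0 : k = 0 := by omega
    subst h0
    obtain ⟨a, ha, hs⟩ := hTP 1
    obtain ⟨x, hx⟩ := D_nonempty (hTP 0)
    have := ha ∅ rfl
    have h2 : x ∈ inst R a ∅ := fun i hi => by simp at hi
    rw [this] at h2
    exact h2
  obtain ⟨m, hm1, hm, hm'⟩ : ∃ m, 1 ≤ m ∧ (∀ N, D R k m N (Set.univ : Set X)) ∧
      ¬ ∀ N, D R k (m + 1) N (Set.univ : Set X) := by
    by_contra hcon
    push Not at hcon
    have : ∀ m, 1 ≤ m → ∀ N, D R k m N (Set.univ : Set X) := by
      intro m hm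
      induction m, hm using Nat.le_induction with
      | base => exact hTP
      | succ j hj ih => exact hcon j hj ih
    exact hk (this k hk1)
  -- the type `p₀`
  obtain ⟨K₀, p₀, hp₀, hp₀D, hp₀'⟩ : ∃ (K : ℕ) (p : Set X), InstConj R K p ∧
      (∀ N, D R k m N p) ∧ ¬ ∃ a : ℕ → Y, KInc R k a ∧ ∀ s : Finset ℕ, s.card = m + 1 →
        ∀ N, D R k m N (p ∩ inst R a s) := by
    by_contra hcon
    push Not at hcon
    refine hm' fun N => ?_
    have : ∀ N K (p : Set X), InstConj R K p → (∀ N, D R k m N p) → D R k (m + 1) N p := by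
      intro N
      induction N with
      | zero => exact fun K p _ h => h 0
      | succ N ih =>
        intro K p hp h
        obtain ⟨a, ha, hs⟩ := hcon K p hp h
        exact ⟨a, ha, fun s hc => ih _ _ (hp.inter (instConj_inst a s)) (hs s hc)⟩
    exact this N 0 _ instConj_univ hm
  -- the uniform bound
  obtain ⟨N₁, hN₁⟩ : ∃ N₁, ¬ ∃ a : ℕ → Y, KInc R k a ∧ ∀ s : Finset ℕ, s.card = m + 1 →
      D R k m N₁ (p₀ ∩ inst R a s) := by
    by_contra hcon
    push Not at hcon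
    exact hp₀' (hsat m (m + 1) K₀ p₀ hp₀ hcon)
  have hram : ∀ a : ℕ → Y, KInc R k a → ∃ f : ℕ → ℕ, StrictMono f ∧ ∀ s : Finset ℕ,
      s.card = m + 1 → ¬ D R k m N₁ (p₀ ∩ inst R (a ∘ f) s) := by
    intro a ha
    obtain ⟨f, hf, h | h⟩ := ramsey (m + 1) (fun s => D R k m N₁ (p₀ ∩ inst R a s))
    · exact absurd ⟨a ∘ f, ha.comp hf, fun s hs => by rw [inst_comp]; exact h s hs⟩ hN₁
    · exact ⟨f, hf, fun s hs => by rw [inst_comp]; exact h s hs⟩
  refine ⟨K₀ + (m + m * N₁), {Z | Z ⊆ p₀ ∧ (∃ K, InstConj R K Z) ∧ ∀ N, D R k m N Z},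
    ⟨p₀, ⟨subset_rfl, ⟨K₀, hp₀⟩, hp₀D⟩, trivial⟩, fun Z hZ => D_nonempty (hZ.2.2 0), ?_⟩
  rintro Z ⟨hZp, ⟨K, hZK⟩, hZD⟩
  obtain ⟨a, ha, hs⟩ := hsat m m K Z hZK (fun N => hZD (N + 1))
  obtain ⟨f, hf, hf'⟩ := hram a ha
  let b := a ∘ f
  have hb : KInc R k b := ha.comp hf
  have hbs : ∀ s : Finset ℕ, s.card = m → ∀ N, D R k m N (Z ∩ inst R b s) := by
    intro s hs' N
    change D R k m N (Z ∩ inst R (a ∘ f) s)
    rw [inst_comp]
    exact hs _ (by rw [Finset.card_image_of_injective _ hf.injective, hs']) N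
  let c : ℕ → Set X := fun j => inst R b (blk m j)
  have hcc : ∀ i j, i < j → ¬ D R k m N₁ (p₀ ∩ c j ∩ c i) := by
    intro i j hij hD
    have h1 : m * i + m ≤ m * j := by
      have : m * (i + 1) ≤ m * j := Nat.mul_le_mul_left m hij
      linarith
    have h2 : (insert (m * i) (blk m j)).card = m + 1 := by
      rw [Finset.card_insert_of_notMem, blk_card]
      simp only [blk, Finset.mem_Ico, not_and_or, not_le]
      left
      omega
    refine hf' _ h2 (D_mono ?_ hD)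
    rintro x ⟨⟨hx1, hx2⟩, hx3⟩
    refine ⟨hx1, fun l hl => ?_⟩
    rcases Finset.mem_insert.1 hl with rfl | hl
    · exact hx3 _ (by simp only [blk, Finset.mem_Ico]; omega)
    · exact hx2 _ hl
  have hW : ∀ j, ¬ D R k m N₁ (⋃ i ∈ Finset.range j, (p₀ ∩ c j ∩ c i)) := by
    intro j hD
    obtain ⟨i, hi, h⟩ := D_biUnion _ _ hD
    exact hcc i j (Finset.mem_range.1 hi) h
  have hcK : ∀ j, InstConj R m (c j) := by
    intro j
    have := instConj_inst (R := R) b (blk m j)
    rwa [blk_card] at this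
  have hE : ∀ j, ∃ E, InstConj R (m * N₁) E ∧ (∀ N, D R k m N (Z ∩ c j ∩ E)) ∧
      (⋃ i ∈ Finset.range j, (p₀ ∩ c j ∩ c i)) ∩ E = ∅ :=
    fun j => path (hsat m m) N₁ _ _ _ (hZK.inter (hcK j)) (hbs _ (blk_card m j)) (hW j)
  choose E hE1 hE2 hE3 using hE
  have hdisj : ∀ i j, i < j → (p₀ ∩ (c i ∩ E i)) ∩ (p₀ ∩ (c j ∩ E j)) = ∅ := by
    intro i j hij
    rw [Set.eq_empty_iff_forall_notMem]
    rintro x ⟨⟨_, hx1, _⟩, hx2, hx3, hx4⟩
    have : x ∈ (⋃ i ∈ Finset.range j, (p₀ ∩ c j ∩ c i)) ∩ E j := by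
      refine ⟨?_, hx4⟩
      simp only [Set.mem_iUnion]
      exact ⟨i, Finset.mem_range.2 hij, ⟨hx2, hx3⟩, hx1⟩
    rw [hE3 j] at this
    exact this
  refine ⟨fun j => p₀ ∩ (c j ∩ E j), fun j => hp₀.inter ((hcK j).inter (hE1 j)), ?_, ?_⟩
  · intro i j hij
    rcases lt_or_gt_of_ne hij with h | h
    · exact hdisj i j h
    · rw [Set.inter_comm]
      exact hdisj j i h
  · intro j
    have h1 : Z ∩ (p₀ ∩ (c j ∩ E j)) = Z ∩ c j ∩ E j := by
      ext x
      constructor
      · rintro ⟨h1, _, h2, h3⟩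
        exact ⟨⟨h1, h2⟩, h3⟩
      · rintro ⟨⟨h1, h2⟩, h3⟩
        exact ⟨h1, hZp h1, h2, h3⟩
    refine ⟨?_, ⟨_, hZK.inter (hp₀.inter ((hcK j).inter (hE1 j)))⟩, ?_⟩
    · exact Set.inter_subset_left.trans hZp
    · intro N
      change D R k m N (Z ∩ (p₀ ∩ (c j ∩ E j)))
      rw [h1]
      exact hE2 j N

/-- Trees with `2`-inconsistent siblings; nodes are lists, read from right to left. -/
theorem tree (hsat : ∀ m j, Sat R k m j) (hTP : ∀ N, D R k 1 N (Set.univ : Set X)) :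
    ∃ (K : ℕ) (W : List ℕ → Set X), (∀ η, InstConj R K (W η)) ∧
      (∀ η i j, i ≠ j → W (i :: η) ∩ W (j :: η) = ∅) ∧
      ∀ η, ∃ x, ∀ ν, ν <:+ η → x ∈ W ν := by
  obtain ⟨K, L, ⟨Z₀, hZ₀, -⟩, hne, hstep⟩ := step hsat hTP
  choose! Θ h1 h2 h3 using hstep
  -- nodes carry a member of `L` and the last set
  let nd : List ℕ → Set X × Set X := fun η =>
    η.foldr (fun j q => (q.1 ∩ Θ q.1 j, Θ q.1 j)) (Z₀ ∩ Θ Z₀ 0, Θ Z₀ 0)
  have hL : ∀ η, (nd η).1 ∈ L := by
    intro η
    induction η with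
    | nil => exact h3 _ hZ₀ 0
    | cons j η ih => exact h3 _ ih j
  have hsub : ∀ η, (nd η).1 ⊆ (nd η).2 := by
    intro η
    cases η with
    | nil => exact Set.inter_subset_right
    | cons j η => exact Set.inter_subset_right
  have hanti : ∀ η j, (nd (j :: η)).1 ⊆ (nd η).1 := fun η j => Set.inter_subset_left
  have hsuf : ∀ η ν, ν <:+ η → (nd η).1 ⊆ (nd ν).1 := by
    intro η
    induction η with
    | nil =>
      intro ν hν
      rw [List.suffix_nil.1 hν]
    | cons j η ih =>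
      intro ν hν
      rcases List.suffix_cons_iff.1 hν with rfl | h
      · exact subset_rfl
      · exact (hanti η j).trans (ih ν h)
  refine ⟨K, fun η => (nd η).2, ?_, ?_, ?_⟩
  · intro η
    cases η with
    | nil => exact h1 _ hZ₀ 0
    | cons j η => exact h1 _ (hL η) j
  · intro η i j hij
    exact h2 _ (hL η) i j hij
  · intro η
    obtain ⟨x, hx⟩ := hne _ (hL η)
    exact ⟨x, fun ν hν => hsub ν (hsuf η ν hν hx)⟩

end Pool.Agent.H702R3.TP
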