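import Pool.Agent.H702R3.TP.Rank

/-!
# Saturation of ultrapowers, in the form used by the rank argument
-/

set_option autoImplicit false

namespace Pool.Agent.H702R3.TP

universe u v

variable {X : Type u} {Y : Type v} (R : X → Y → Prop)

/-- a finite set of parameters is (in)consistent -/
def Holds {I : Type} {K : ℕ} (w : I → Y) (t : Fin K → Y) (c : Finset (I ⊕ Fin K) × Bool) : Prop :=
  (∃ x, ∀ i ∈ c.1, R x (Sum.elim w t i)) ↔ c.2 = true

/-- countable saturation for the conditions above -/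
def CSat : Prop := ∀ (I : Type) [Countable I] (K : ℕ) (t : Fin K → Y)
  (C : ℕ → Set (Finset (I ⊕ Fin K) × Bool)), Monotone C →
  (∀ N, ∃ w : I → Y, ∀ c ∈ C N, Holds R w t c) → ∃ w : I → Y, ∀ N, ∀ c ∈ C N, Holds R w t c

/-- the set of points along a path -/
def pathset : (List (Finset ℕ) → ℕ → Y) → List (Finset ℕ) → Set X
  | _, [] => Set.univ
  | T, (s :: σ) => inst R (T []) s ∩ pathset (fun τ => T (s :: τ)) σ

variable {R} {k m : ℕ}

theorem D_iff [Nonempty Y] : ∀ {N : ℕ} {Z : Set X}, D R k m N Z ↔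
    ∃ T : List (Finset ℕ) → ℕ → Y,
    (∀ σ, σ.length < N → (∀ s ∈ σ, s.card = m) → KInc R k (T σ)) ∧
      ∀ σ, σ.length = N → (∀ s ∈ σ, s.card = m) → (Z ∩ pathset R T σ).Nonempty := by
  classical
  intro N
  induction N with
  | zero =>
    intro Z
    constructor
    · intro h
      refine ⟨fun _ _ => Classical.arbitrary Y, fun σ hσ => absurd hσ (Nat.not_lt_zero _), ?_⟩
      intro σ hσ _
      rw [List.length_eq_zero_iff.1 hσ]
      have h' : Z.Nonempty := h
      simpa [pathset] using h'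
    · rintro ⟨T, _, h⟩
      obtain ⟨x, hx, _⟩ := h [] rfl (by simp)
      exact ⟨x, hx⟩
  | succ N ih =>
    intro Z
    constructor
    · rintro ⟨a, ha, hs⟩
      have h1 : ∀ s : Finset ℕ, ∃ T : List (Finset ℕ) → ℕ → Y, s.card = m →
          (∀ σ, σ.length < N → (∀ s ∈ σ, s.card = m) → KInc R k (T σ)) ∧
          ∀ σ, σ.length = N → (∀ s ∈ σ, s.card = m) →
            ((Z ∩ inst R a s) ∩ pathset R T σ).Nonempty := by
        intro s
        by_cases hsm : s.card = m
        · obtain ⟨T, hT⟩ := ih.1 (hs s hsm)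
          exact ⟨T, fun _ => hT⟩
        · exact ⟨fun _ _ => Classical.arbitrary Y, fun h => absurd h hsm⟩
      choose T hT using h1
      let T' : List (Finset ℕ) → ℕ → Y := fun σ => match σ with
        | [] => a
        | (s :: τ) => T s τ
      refine ⟨T', ?_, ?_⟩
      · intro σ hσ hc
        cases σ with
        | nil => exact ha
        | cons s τ =>
          have hsm : s.card = m := hc s (by simp)
          exact (hT s hsm).1 τ (by simpa using hσ) (fun s' hs' => hc s' (by simp [hs']))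
      · intro σ hσ hc
        cases σ with
        | nil => simp at hσ
        | cons s τ =>
          have hsm : s.card = m := hc s (by simp)
          have h2 := (hT s hsm).2 τ (by simpa using hσ) (fun s' hs' => hc s' (by simp [hs']))
          have h3 : Z ∩ pathset R T' (s :: τ) = (Z ∩ inst R a s) ∩ pathset R (T s) τ := by
            rw [Set.inter_assoc]
            rfl
          rw [h3]
          exact h2
    · rintro ⟨T, h1, h2⟩
      refine ⟨T [], h1 [] (by simp) (by simp), fun s hs => ?_⟩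
      refine ih.2 ⟨fun τ => T (s :: τ), ?_, ?_⟩
      · intro σ hσ hc
        refine h1 (s :: σ) (by simpa using hσ) ?_
        intro s' hs'
        rcases List.mem_cons.1 hs' with rfl | h
        · exact hs
        · exact hc s' h
      · intro σ hσ hc
        have := h2 (s :: σ) (by simpa using hσ) (by
          intro s' hs'
          rcases List.mem_cons.1 hs' with rfl | h
          · exact hs
          · exact hc s' h)
        rw [Set.inter_assoc]
        exact this

/-- the variables -/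
abbrev Vars := ℕ ⊕ (ℕ × Finset ℕ × List (Finset ℕ) × ℕ)

/-- the parameters along a path -/
def pparams [DecidableEq Vars] (N : ℕ) (s : Finset ℕ) :
    List (Finset ℕ) → List (Finset ℕ) → Finset Vars
  | _, [] => ∅
  | pre, (u :: σ) => u.image (fun i => Sum.inr (N, s, pre, i)) ∪ pparams N s (pre ++ [u]) σ

theorem mem_pathset (w : Vars → Y) (N : ℕ) (s : Finset ℕ) (x : X) :
    ∀ (σ pre : List (Finset ℕ)),
      (x ∈ pathset R (fun τ i => w (Sum.inr (N, s, pre ++ τ, i))) σ ↔
        ∀ i ∈ pparams N s pre σ, R x (w i)) := by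
  intro σ
  induction σ with
  | nil => intro pre; simp [pathset, pparams]
  | cons u σ ih =>
    intro pre
    have h1 : (fun τ i => w (Sum.inr (N, s, pre ++ (u :: τ), i))) =
        (fun τ i => w (Sum.inr (N, s, (pre ++ [u]) ++ τ, i))) := by
      funext τ i
      rw [List.append_assoc]
      rfl
    simp only [pathset, pparams, Set.mem_inter_iff, Finset.mem_union]
    rw [h1, ih (pre ++ [u])]
    constructor
    · rintro ⟨h2, h3⟩ i (hi | hi)
      · obtain ⟨j, hj, rfl⟩ := Finset.mem_image.1 hi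
        have := h2 j hj
        simpa using this
      · exact h3 i hi
    · intro h
      refine ⟨fun j hj => ?_, fun i hi => h i (Or.inr hi)⟩
      have := h _ (Or.inl (Finset.mem_image_of_mem _ hj))
      simpa using this

theorem sat_of_csat [Nonempty Y] (h : CSat R) (j : ℕ) : Sat R k m j := by
  classical
  rintro K Z ⟨t, rfl⟩ hN
  -- the finite sets of variables
  let f0 : Finset ℕ → Finset (Vars ⊕ Fin K) := fun u => u.image (fun i => Sum.inl (Sum.inl i))
  let f1 : ℕ → Finset ℕ → List (Finset ℕ) → Finset ℕ → Finset (Vars ⊕ Fin K) :=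
    fun N s σ u => u.image (fun i => Sum.inl (Sum.inr (N, s, σ, i)))
  let f2 : ℕ → Finset ℕ → List (Finset ℕ) → Finset (Vars ⊕ Fin K) :=
    fun N s σ => (Finset.univ.image Sum.inr ∪ f0 s) ∪ (pparams N s [] σ).image Sum.inl
  let C : ℕ → Set (Finset (Vars ⊕ Fin K) × Bool) := fun N' =>
    {c | (∃ u, u.card = k ∧ c = (f0 u, false)) ∨
      (∃ N s σ u, N ≤ N' ∧ s.card = j ∧ σ.length < N ∧ (∀ s' ∈ σ, s'.card = m) ∧ u.card = k ∧
        c = (f1 N s σ u, false)) ∨
      (∃ N s σ, N ≤ N' ∧ s.card = j ∧ σ.length = N ∧ (∀ s' ∈ σ, s'.card = m) ∧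
        c = (f2 N s σ, true))}
  have hC : Monotone C := by
    rintro N N' hNN' c (h1 | ⟨N₀, s, σ, u, h1, h2⟩ | ⟨N₀, s, σ, h1, h2⟩)
    · exact Or.inl h1
    · exact Or.inr (Or.inl ⟨N₀, s, σ, u, h1.trans hNN', h2⟩)
    · exact Or.inr (Or.inr ⟨N₀, s, σ, h1.trans hNN', h2⟩)
  -- translation of the conditions
  have t0 : ∀ (w : Vars → Y) (u : Finset ℕ), Holds R w t (f0 u, false) ↔
      inst R (fun i => w (Sum.inl i)) u = ∅ := by
    intro w u
    simp only [Holds, f0, Finset.forall_mem_image, Sum.elim_inl]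
    rw [Set.eq_empty_iff_forall_notMem]
    simp [inst]
  have t1 : ∀ (w : Vars → Y) (N : ℕ) (s : Finset ℕ) (σ : List (Finset ℕ)) (u : Finset ℕ),
      Holds R w t (f1 N s σ u, false) ↔ inst R (fun i => w (Sum.inr (N, s, σ, i))) u = ∅ := by
    intro w N s σ u
    simp only [Holds, f1, Finset.forall_mem_image, Sum.elim_inl]
    rw [Set.eq_empty_iff_forall_notMem]
    simp [inst]
  have t2 : ∀ (w : Vars → Y) (N : ℕ) (s : Finset ℕ) (σ : List (Finset ℕ)),
      Holds R w t (f2 N s σ, true) ↔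
        (({x | ∀ i, R x (t i)} ∩ inst R (fun i => w (Sum.inl i)) s) ∩
          pathset R (fun τ i => w (Sum.inr (N, s, τ, i))) σ).Nonempty := by
    intro w N s σ
    have h1 : ∀ x, (x ∈ pathset R (fun τ i => w (Sum.inr (N, s, τ, i))) σ ↔
        ∀ i ∈ pparams N s [] σ, R x (w i)) := fun x => mem_pathset w N s x σ []
    simp only [Holds, iff_true]
    constructor
    · rintro ⟨x, hx⟩
      refine ⟨x, ⟨fun i => ?_, fun i hi => ?_⟩, (h1 x).2 fun i hi => ?_⟩
      · exact hx (Sum.inr i) (by simp [f2])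
      · exact hx (Sum.inl (Sum.inl i)) (by simp [f2, f0, hi])
      · exact hx (Sum.inl i) (by simp [f2, hi])
    · rintro ⟨x, ⟨h2, h3⟩, h4⟩
      refine ⟨x, fun i hi => ?_⟩
      simp only [f2, Finset.mem_union] at hi
      rcases hi with (hi | hi) | hi
      · obtain ⟨l, -, rfl⟩ := Finset.mem_image.1 hi
        exact h2 l
      · obtain ⟨l, hl, rfl⟩ := Finset.mem_image.1 hi
        exact h3 l hl
      · obtain ⟨l, hl, rfl⟩ := Finset.mem_image.1 hi
        exact (h1 x).1 h4 l hl
  obtain ⟨w, hw⟩ := h Vars K t C hC (by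
    intro N'
    obtain ⟨a, ha, hs⟩ := hN N'
    have h1 : ∀ (N : ℕ) (s : Finset ℕ), ∃ T : List (Finset ℕ) → ℕ → Y, N ≤ N' → s.card = j →
        (∀ σ, σ.length < N → (∀ s ∈ σ, s.card = m) → KInc R k (T σ)) ∧
        ∀ σ, σ.length = N → (∀ s ∈ σ, s.card = m) →
          (({x | ∀ i, R x (t i)} ∩ inst R a s) ∩ pathset R T σ).Nonempty := by
      intro N s
      by_cases hc : N ≤ N' ∧ s.card = j
      · obtain ⟨T, hT⟩ := D_iff.1 (D_anti hc.1 (hs s hc.2))
        exact ⟨T, fun _ _ => hT⟩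
      · exact ⟨fun _ _ => Classical.arbitrary Y, fun h1 h2 => absurd ⟨h1, h2⟩ hc⟩
    choose T hT using h1
    let w : Vars → Y := Sum.elim a (fun q => T q.1 q.2.1 q.2.2.1 q.2.2.2)
    refine ⟨w, ?_⟩
    rintro c (⟨u, hu, rfl⟩ | ⟨N, s, σ, u, h1, h2, h3, h4, h5, rfl⟩ | ⟨N, s, σ, h1, h2, h3, h4, rfl⟩)
    · rw [t0]
      exact ha u hu
    · rw [t1]
      exact (hT N s h1 h2).1 σ h3 h4 u h5
    · rw [t2]
      exact (hT N s h1 h2).2 σ h3 h4)
  refine ⟨fun i => w (Sum.inl i), ?_, ?_⟩
  · intro u hu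
    exact (t0 w u).1 (hw 0 _ (Or.inl ⟨u, hu, rfl⟩))
  · intro s hs N
    rw [D_iff]
    refine ⟨fun τ i => w (Sum.inr (N, s, τ, i)), ?_, ?_⟩
    · intro σ hσ hc u hu
      exact (t1 w N s σ u).1 (hw N _ (Or.inr (Or.inl ⟨N, s, σ, u, le_rfl, hs, hσ, hc, hu, rfl⟩)))
    · intro σ hσ hc
      exact (t2 w N s σ).1 (hw N _ (Or.inr (Or.inr ⟨N, s, σ, le_rfl, hs, hσ, hc, rfl⟩)))

end Pool.Agent.H702R3.TP
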