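import Pool.Agent.H702R3.TP.Sat

/-!
# Ultrapowers over the natural numbers are countably saturated
-/

set_option autoImplicit false

namespace Pool.Agent.H702R3.TP

universe u v u' v'

open Filter

/-- `R'` is the ultrapower of `R` over a nonprincipal ultrafilter on the natural numbers. -/
structure IsUltra {X : Type u} {Y : Type v} {X' : Type u'} {Y' : Type v'} (R : X → Y → Prop)
    (R' : X' → Y' → Prop) where
  U : Ultrafilter ℕ
  cof : ∀ n₀ : ℕ, ∀ᶠ n in (U : Filter ℕ), n₀ ≤ n
  cX : (ℕ → X) → X'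
  cY : (ℕ → Y) → Y'
  surjX : Function.Surjective cX
  surjY : Function.Surjective cY
  rel : ∀ x y, R' (cX x) (cY y) ↔ ∀ᶠ n in (U : Filter ℕ), R (x n) (y n)

variable {X : Type u} {Y : Type v} {X' : Type u'} {Y' : Type v'} {R : X → Y → Prop}
    {R' : X' → Y' → Prop}

theorem IsUltra.exists_iff (h : IsUltra R R') [Nonempty X] {I : Type} (F : Finset I)
    (w : I → ℕ → Y) :
    (∃ x', ∀ i ∈ F, R' x' (h.cY (w i))) ↔
      ∀ᶠ n in (h.U : Filter ℕ), ∃ x, ∀ i ∈ F, R x (w i n) := by
  classical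
  constructor
  · rintro ⟨x', hx'⟩
    obtain ⟨x, rfl⟩ := h.surjX x'
    have h1 : ∀ᶠ n in (h.U : Filter ℕ), ∀ i ∈ F, R (x n) (w i n) := by
      rw [Filter.eventually_all_finset]
      exact fun i hi => (h.rel _ _).1 (hx' i hi)
    exact h1.mono fun n hn => ⟨x n, hn⟩
  · intro h1
    let x : ℕ → X := fun n =>
      if h2 : ∃ x, ∀ i ∈ F, R x (w i n) then h2.choose else Classical.arbitrary X
    refine ⟨h.cX x, fun i hi => (h.rel _ _).2 ?_⟩
    refine h1.mono fun n hn => ?_
    simp only [x, dif_pos hn]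
    exact hn.choose_spec i hi

/-- Ultrapowers over the natural numbers are countably saturated. -/
theorem IsUltra.csat (h : IsUltra R R') [Nonempty X] : CSat R' := by
  classical
  intro I _ K t C hC hN
  choose w hw using hN
  have hr : ∀ N i, ∃ y, h.cY y = w N i := fun N i => h.surjY _
  choose wr hwr using hr
  have ht : ∀ i, ∃ y, h.cY y = t i := fun i => h.surjY _
  choose tr htr using ht
  -- the conditions in the factors
  let P : ℕ → ℕ → Finset (I ⊕ Fin K) × Bool → Prop := fun N n c =>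
    (∃ x, ∀ i ∈ c.1, R x (Sum.elim (fun i => wr N i n) (fun l => tr l n) i)) ↔ c.2 = true
  have hP : ∀ N, ∀ c ∈ C N, ∀ᶠ n in (h.U : Filter ℕ), P N n c := by
    intro N c hc
    have h1 := hw N c hc
    have h2 : (∃ x, ∀ i ∈ c.1, R' x (Sum.elim (w N) t i)) ↔
        ∀ᶠ n in (h.U : Filter ℕ),
          ∃ x, ∀ i ∈ c.1, R x (Sum.elim (fun i => wr N i n) (fun l => tr l n) i) := by
      have h3 := h.exists_iff c.1 (Sum.elim (wr N) tr)
      have h4 : ∀ i, h.cY (Sum.elim (wr N) tr i) = Sum.elim (w N) t i := by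
        rintro (i | i)
        · exact hwr N i
        · exact htr i
      simp only [h4] at h3
      refine h3.trans ?_
      refine eventually_congr (Eventually.of_forall fun n => ?_)
      have h5 : ∀ i, Sum.elim (wr N) tr i n = Sum.elim (fun i => wr N i n) (fun l => tr l n) i := by
        rintro (i | i) <;> rfl
      simp only [h5]
    unfold Holds at h1
    rw [h2] at h1
    by_cases hb : c.2 = true
    · refine (h1.2 hb).mono fun n hn => ?_
      exact ⟨fun _ => hb, fun _ => hn⟩
    · have h6 : ¬ ∀ᶠ n in (h.U : Filter ℕ),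
          ∃ x, ∀ i ∈ c.1, R x (Sum.elim (fun i => wr N i n) (fun l => tr l n) i) :=
        fun h7 => hb (h1.1 h7)
      rw [← Ultrafilter.eventually_not] at h6
      refine h6.mono fun n hn => ?_
      exact ⟨fun h7 => absurd h7 hn, fun h7 => absurd h7 hb⟩
  obtain ⟨e, he⟩ := exists_surjective_nat (Finset (I ⊕ Fin K) × Bool)
  let B : ℕ → ℕ → Prop := fun N n => N ≤ n ∧ ∀ l ≤ N, e l ∈ C N → P N n (e l)
  have hB : ∀ N, ∀ᶠ n in (h.U : Filter ℕ), B N n := by
    intro N
    refine (h.cof N).and ?_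
    have h1 : ∀ᶠ n in (h.U : Filter ℕ), ∀ l ∈ Finset.range (N + 1), (e l ∈ C N → P N n (e l)) := by
      rw [Filter.eventually_all_finset]
      intro l _
      by_cases hl : e l ∈ C N
      · exact (hP N _ hl).mono fun n hn _ => hn
      · exact Eventually.of_forall fun n hl' => absurd hl' hl
    exact h1.mono fun n hn l hl => hn l (Finset.mem_range.2 (Nat.lt_succ_of_le hl))
  let ν : ℕ → ℕ := fun n => Nat.findGreatest (fun N => B N n) n
  refine ⟨fun i => h.cY (fun n => wr (ν n) i n), fun N₀ c hc => ?_⟩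
  obtain ⟨l, rfl⟩ := he c
  let N₁ := max l N₀
  have h1 : ∀ᶠ n in (h.U : Filter ℕ), P (ν n) n (e l) := by
    refine (hB N₁).mono fun n hn => ?_
    have h2 : B (ν n) n := Nat.findGreatest_spec (P := fun N => B N n) hn.1 hn
    have h3 : N₁ ≤ ν n := Nat.le_findGreatest hn.1 hn
    exact h2.2 l ((le_max_left _ _).trans h3) (hC ((le_max_right l N₀).trans h3) hc)
  have h2 := h.exists_iff (e l).1 (Sum.elim (fun i n => wr (ν n) i n) tr)
  have h4 : ∀ i, h.cY (Sum.elim (fun i n => wr (ν n) i n) tr i) =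
      Sum.elim (fun i => h.cY (fun n => wr (ν n) i n)) t i := by
    rintro (i | i)
    · rfl
    · exact htr i
  simp only [h4] at h2
  unfold Holds
  rw [h2]
  have h5 : ∀ n i, Sum.elim (fun i n => wr (ν n) i n) tr i n =
      Sum.elim (fun i => wr (ν n) i n) (fun l => tr l n) i := by
    rintro n (i | i) <;> rfl
  simp only [h5]
  by_cases hb : (e l).2 = true
  · refine ⟨fun _ => hb, fun _ => h1.mono fun n hn => hn.2 hb⟩
  · refine ⟨fun h6 => ?_, fun h6 => absurd h6 hb⟩
    obtain ⟨n, hn1, hn2⟩ := (h6.and h1).exists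
    exact hn2.1 hn1

end Pool.Agent.H702R3.TP
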